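import Pool.Agent.Helper77.HY.St

/-!
# MP_7a9ddc_co, project HY, module PIE: colouring a piece
-/

set_option autoImplicit false

namespace Pool.Agent.Helper28.HY.PIE

open Pool.Agent.Helper35.PM Pool.Agent.Helper77.HY

theorem pick {V : Type} (M : V → Finset ℕ) (hM : ∀ v, (M v).card = 2) (S : Finset V)
    (hS : S.card ≤ 2) :
    ∃ c : V → ℕ, (∀ v ∈ S, c v ∈ M v) ∧ ∀ u ∈ S, ∀ v ∈ S, u ≠ v → c u ≠ c v := by
  classical
  induction S using Finset.induction_on with
  | empty => exact ⟨fun _ => 0, by simp, by simp⟩
  | insert a S' ha ih =>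
    rw [Finset.card_insert_of_notMem ha] at hS
    obtain ⟨c', h1, h2⟩ := ih (by omega)
    have hne : (M a \ S'.image c').Nonempty := by
      rw [← Finset.card_pos]
      have e1 := Finset.le_card_sdiff (S'.image c') (M a)
      have e2 : (S'.image c').card ≤ S'.card := Finset.card_image_le
      have e3 := hM a
      omega
    obtain ⟨x, hx⟩ := hne
    rw [Finset.mem_sdiff] at hx
    obtain ⟨hx1, hx2⟩ := hx
    have key : ∀ v ∈ S', c' v ≠ x := by
      intro v hv hvx
      exact hx2 (Finset.mem_image.2 ⟨v, hv, hvx⟩)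
    have hneq : ∀ v ∈ S', v ≠ a := by
      rintro v hv rfl
      exact ha hv
    refine ⟨Function.update c' a x, ?_, ?_⟩
    · intro v hv
      rcases Finset.mem_insert.1 hv with rfl | hv
      · simpa using hx1
      · rw [Function.update_of_ne (hneq v hv)]
        exact h1 v hv
    · intro u hu v hv huv
      rcases Finset.mem_insert.1 hu with hua | hu'
      · subst hua
        rcases Finset.mem_insert.1 hv with hva | hv'
        · exact absurd hva.symm huv
        · rw [Function.update_self, Function.update_of_ne (hneq v hv')]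
          exact (key v hv').symm
      · rcases Finset.mem_insert.1 hv with hva | hv'
        · subst hva
          rw [Function.update_self, Function.update_of_ne (hneq u hu')]
          exact key u hu'
        · rw [Function.update_of_ne (hneq u hu'), Function.update_of_ne (hneq v hv')]
          exact h2 u hu' v hv' huv

theorem main (hPc : StPc) (hLc : StLc) : StPie := by
  classical
  intro V _ G I K hP hT hgood L A hLA
  obtain ⟨S, C, hSK, hcol, hC, hCd, hI, hb⟩ := hgood
  have := Fintype.ofFinite V
  have hS2 : S.card ≤ 2 := by omega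
  obtain ⟨c1, hc1, hc1'⟩ := pick (fun v => L v \ A) (fun v => (hLA v).2) S hS2
  obtain ⟨C2⟩ := hcol
  set R : Finset V := Finset.univ.filter (fun v => v ∈ K \ (S : Set V)) with hR
  have hRm : ∀ v, v ∈ R ↔ v ∈ K \ (S : Set V) := by
    intro v
    simp [hR]
  let p : V → Bool := fun v => if h : v ∈ K \ (S : Set V) then decide (C2 ⟨v, h⟩ = 0) else false
  let N : V → Prop := fun u => ∃ x ∈ I, G.Adj u x
  let w : V → ℕ := fun u => dg G u S + if N u then 1 else 0
  let L' : V → Finset ℕ := fun u =>
    (if N u then L u \ A else L u) \ (S.filter (fun s => G.Adj u s)).image c1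
  have hp : ∀ u ∈ R, ∀ v ∈ R, G.Adj u v → p u ≠ p v := by
    intro u hu v hv huv
    have hu' := (hRm u).1 hu
    have hv' := (hRm v).1 hv
    have hne : C2 ⟨u, hu'⟩ ≠ C2 ⟨v, hv'⟩ := C2.valid (by
      rw [SimpleGraph.comap_adj]
      exact huv)
    simp only [p, dif_pos hu', dif_pos hv']
    intro h
    apply hne
    have h2 : ∀ a b : Fin 2, decide (a = 0) = decide (b = 0) → a = b := by decide
    exact h2 _ _ h
  have hw : ∀ U ⊆ R, eN G U + ∑ v ∈ U, w v ≤ 2 * U.card := by
    intro U hU
    have h := hPc V G I K S C hP hT hSK hC hCd hI hb U (by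
      intro v hv
      exact (hRm v).1 (hU hv))
    have e1 : {u : V | u ∈ U ∧ ∃ x ∈ I, G.Adj u x}.ncard = (U.filter N).card := by
      rw [← Set.ncard_coe_finset]
      congr 1
      ext u
      simp [N]
    have e2 : ∑ v ∈ U, w v = ∑ u ∈ U, dg G u S + (U.filter N).card := by
      rw [Finset.card_filter, ← Finset.sum_add_distrib]
    rw [e1] at h
    rw [e2]
    omega
  have hdg : ∀ u, dg G u S = (S.filter (fun s => G.Adj u s)).card := by
    intro u
    rw [← Set.ncard_coe_finset, dg]
    congr 1
    ext s
    simp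
  have hL3 : ∀ u, (L u).card = 3 := by
    intro u
    have h := hLA u
    have h2 := Finset.card_inter_add_card_sdiff (L u) A
    omega
  have hL' : ∀ v ∈ R, 3 ≤ (L' v).card + w v := by
    intro v _
    have e1 : (S.filter (fun s => G.Adj v s)).card = dg G v S := (hdg v).symm
    have e2 : ((S.filter (fun s => G.Adj v s)).image c1).card ≤
        (S.filter (fun s => G.Adj v s)).card := Finset.card_image_le
    by_cases hN : N v
    · simp only [L', w, if_pos hN]
      have e3 := Finset.le_card_sdiff ((S.filter (fun s => G.Adj v s)).image c1) (L v \ A)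
      have e4 := (hLA v).2
      omega
    · simp only [L', w, if_neg hN]
      have e3 := Finset.le_card_sdiff ((S.filter (fun s => G.Adj v s)).image c1) (L v)
      have e4 := hL3 v
      omega
  obtain ⟨c2, hc2, hc2'⟩ := hLc V G R p w hp hw L' hL'
  have hcase : ∀ v ∈ K, v ∉ S → v ∈ R := by
    intro v hv hvS
    exact (hRm v).2 ⟨hv, by simpa using hvS⟩
  have hsub : ∀ v ∈ R, c2 v ∈ L v ∧ (N v → c2 v ∉ A) ∧
      ∀ s ∈ S, G.Adj v s → c1 s ≠ c2 v := by
    intro v hv
    have h := hc2 v hv
    simp only [L', Finset.mem_sdiff, Finset.mem_image, Finset.mem_filter] at h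
    obtain ⟨h1, h2⟩ := h
    refine ⟨?_, ?_, ?_⟩
    · by_cases hN : N v
      · rw [if_pos hN] at h1
        exact (Finset.mem_sdiff.1 h1).1
      · rwa [if_neg hN] at h1
    · intro hN
      rw [if_pos hN] at h1
      exact (Finset.mem_sdiff.1 h1).2
    · intro s hs hvs he
      exact h2 ⟨s, ⟨hs, hvs⟩, he⟩
  refine ⟨fun v => if v ∈ S then c1 v else c2 v, ?_, ?_, ?_⟩
  · intro v hv
    by_cases hvS : v ∈ S
    · simp only [if_pos hvS]
      exact (Finset.mem_sdiff.1 (hc1 v hvS)).1
    · simp only [if_neg hvS]
      exact (hsub v (hcase v hv hvS)).1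
  · intro v hv hN
    by_cases hvS : v ∈ S
    · simp only [if_pos hvS]
      exact (Finset.mem_sdiff.1 (hc1 v hvS)).2
    · simp only [if_neg hvS]
      exact (hsub v (hcase v hv hvS)).2.1 hN
  · intro u hu v hv huv
    by_cases huS : u ∈ S
    · by_cases hvS : v ∈ S
      · simp only [if_pos huS, if_pos hvS]
        exact hc1' u huS v hvS huv.ne
      · simp only [if_pos huS, if_neg hvS]
        exact (hsub v (hcase v hv hvS)).2.2 u huS huv.symm
    · by_cases hvS : v ∈ S
      · simp only [if_neg huS, if_pos hvS]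
        exact ((hsub u (hcase u hu huS)).2.2 v hvS huv).symm
      · simp only [if_neg huS, if_neg hvS]
        exact hc2' u (hcase u hu huS) v (hcase v hv hvS) huv

end Pool.Agent.Helper28.HY.PIE
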